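import Pool.Agent.TH849.LB.Bound
import Pool.Agent.TH583.HB.Final
import Pool.Agent.TH100.LV.Final

/-!
# The structure of a smallest `r`-graph without Petersen minor that is not `r`-edge-colourable
-/

set_option autoImplicit false

namespace Pool.Agent.TH849.LB

open Finset H76FC H76TX H76TY Pool.Agent.W315.LB

/-- the heavy set `S` blocks the perfect matching `M` of the `r`-graph `p`: in `p - M` fewer than
`r - 1` edges leave `S` -/
def Blocks {V : Type} [Fintype V] [DecidableEq V] (r : ℕ) (p : V → V → ℕ) (M : V → V)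
    (S : Finset V) : Prop :=
  TH583.HB.Heavy (gr p) S ∧ 5 ≤ (S.filter fun v => M v ∉ S).card ∧
    cut p S + 3 ≤ r + (S.filter fun v => M v ∉ S).card

theorem cuts_of {V : Type} [Fintype V] [DecidableEq V] {r : ℕ} {p : V → V → ℕ} (hR : RGraph r p)
    (hN : NoTight r p) {X : Finset V} (hX : Odd X.card) (h1 : X.card ≠ 1) (h2 : Xᶜ.card ≠ 1) :
    r + 2 ≤ cut p X := by
  have h3 := hR.odd X hX
  obtain ⟨a, ha⟩ := TH583.HB.cut_parity hR hX
  have h4 : cut p X ≠ r := by
    intro h0
    rcases hN X hX h0 with h | h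
    · exact h1 h
    · exact h2 h
  omega

/-- a perfect matching leaves an `(r-1)`-graph or is blocked by two disjoint sets -/
theorem blocked_of {V : Type} [Fintype V] [DecidableEq V] {r : ℕ} {p : V → V → ℕ} (hr : 3 ≤ r)
    (hR : RGraph r p) (hN : NoTight r p) {M : V → V} (hM : PMof p M) :
    RGraph (r - 1) (minus p M) ∨
      ∃ S T : Finset V, Disjoint S T ∧ Blocks r p M S ∧ Blocks r p M T := by
  classical
  have hgr : ∀ u v, 0 < p u v → u ≠ v → (gr p).Adj u v := fun u v h huv => Y13.adj_gr p u v huv h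
  have hq : ∀ M : V → V, ∀ u v, 0 < minus p M u v → u ≠ v → (gr p).Adj u v := by
    intro M u v h huv
    refine hgr u v ?_ huv
    unfold minus at h
    omega
  have hviol : ∀ S, TH583.HB.MinV (r - 1) (minus p M) S → Blocks r p M S := by
    intro S hS
    have h1 := TH583.HB.cut_add hM S
    have h2 := hS.lt
    have h3 := hR.odd S hS.odd
    obtain ⟨a, ha⟩ := TH583.HB.cut_parity hR hS.odd
    obtain ⟨b, hb⟩ := TH583.HB.out_parity hM.1 S
    obtain ⟨c, hc⟩ := hS.odd
    have h4 : H76FC.cut p S - r + 3 ≤ out M S := by omega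
    have hle : out M S ≤ S.card := Finset.card_filter_le _ _
    have hle' : out M S ≤ Sᶜ.card := by
      apply Finset.card_le_card_of_injOn M
      · intro v hv
        have := (Finset.mem_filter.1 hv).2
        exact Finset.mem_coe.2 (Finset.mem_compl.2 this)
      · intro u _ v _ huv
        have := congrArg M huv
        rwa [hM.1.1, hM.1.1] at this
    have htight : H76FC.cut p S ≠ r := by
      intro h0
      rcases hN S hS.odd h0 with h1 | h1 <;> omega
    have h5 : 5 ≤ out M S := by omega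
    refine ⟨hS.heavy (by omega) (hq M), h5, ?_⟩
    show cut p S + 3 ≤ r + out M S
    omega
  rcases TH583.HB.remove_or (by omega) hR hM with h | ⟨S, T, hST, hS, hT⟩
  · exact Or.inl h
  · exact Or.inr ⟨S, T, hST, hviol S hS, hviol T hT⟩

/-- `S` blocks some perfect matching of `p` -/
def Blocking {V : Type} [Fintype V] [DecidableEq V] (r : ℕ) (p : V → V → ℕ) (S : Finset V) : Prop :=
  ∃ M, PMof p M ∧ Blocks r p M S

open Classical in
/-- the averaging inequality for the blocking sets -/
theorem weights_of {V : Type} [Fintype V] [DecidableEq V] {r : ℕ} {p : V → V → ℕ} (hr : 1 ≤ r)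
    (hp : RGraph r p)
    (hbl : ∀ M, PMof p M → ∃ S T : Finset V, Disjoint S T ∧ Blocks r p M S ∧ Blocks r p M T)
    (y : Finset V → ℝ) (hy0 : ∀ S, 0 ≤ y S)
    (hy : ∀ M S T, PMof p M → Blocks r p M S → Blocks r p M T → Disjoint S T → 1 ≤ y S + y T) :
    (r : ℝ) ≤ ∑ S ∈ univ.filter (Blocking r p),
      y S * (((cut p S : ℝ) - r) / ((cut p S : ℝ) - r + 2)) := by
  set F : Finset (Finset V) := univ.filter (Blocking r p) with hF
  have hr0 : (0 : ℝ) < r := by exact_mod_cast hr
  have hodd : ∀ S ∈ F, Odd S.card := by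
    intro S hS
    rw [hF, mem_filter] at hS
    obtain ⟨_, M, _, hM⟩ := hS
    exact hM.1.odd
  have hD : ∀ S ∈ F, (0 : ℝ) ≤ (cut p S : ℝ) - r := by
    intro S hS
    have h1 : (r : ℝ) ≤ cut p S := by exact_mod_cast hp.odd S (hodd S hS)
    linarith
  obtain ⟨M, hM, h1⟩ := TH467.DC.avg hr hp F (fun S => y S / ((cut p S : ℝ) - r + 2))
  have h2 : (r : ℝ) * ∑ S ∈ F, y S / ((cut p S : ℝ) - r + 2) * ((out M S : ℝ) - 1) ≤
      ∑ S ∈ F, y S * (((cut p S : ℝ) - r) / ((cut p S : ℝ) - r + 2)) := by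
    have e1 : ∑ S ∈ F, y S / ((cut p S : ℝ) - r + 2) * ((out M S : ℝ) - 1) =
        ∑ S ∈ F, y S / ((cut p S : ℝ) - r + 2) * (out M S : ℝ) -
          ∑ S ∈ F, y S / ((cut p S : ℝ) - r + 2) := by
      rw [← sum_sub_distrib]
      exact sum_congr rfl fun S _ => by ring
    have e2 : ∑ S ∈ F, y S * (((cut p S : ℝ) - r) / ((cut p S : ℝ) - r + 2)) =
        ∑ S ∈ F, y S / ((cut p S : ℝ) - r + 2) * (cut p S : ℝ) -
          r * ∑ S ∈ F, y S / ((cut p S : ℝ) - r + 2) := by
      rw [mul_sum, ← sum_sub_distrib]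
      exact sum_congr rfl fun S _ => by ring
    rw [e1, e2, mul_sub]
    linarith
  obtain ⟨S, T, hST, hS, hT⟩ := hbl M hM
  have hSF : S ∈ F := mem_filter.2 ⟨mem_univ _, M, hM, hS⟩
  have hTF : T ∈ F := mem_filter.2 ⟨mem_univ _, M, hM, hT⟩
  have hne : S ≠ T := by
    intro he
    rw [he, disjoint_self] at hST
    have h3 := hodd T hTF
    rw [hST] at h3
    simp at h3
  have h3 : ∀ U, Blocks r p M U → U ∈ F →
      y U ≤ y U / ((cut p U : ℝ) - r + 2) * ((out M U : ℝ) - 1) := by
    intro U hU hUF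
    have h4 := hD U hUF
    have h5 : ((cut p U : ℝ)) + 3 ≤ r + out M U := by exact_mod_cast hU.2.2
    have h6 : (0 : ℝ) < (cut p U : ℝ) - r + 2 := by linarith
    rw [div_mul_eq_mul_div, le_div_iff₀ h6]
    exact mul_le_mul_of_nonneg_left (by linarith) (hy0 U)
  have h4 : y S + y T ≤ ∑ U ∈ F, y U / ((cut p U : ℝ) - r + 2) * ((out M U : ℝ) - 1) := by
    have h5 : ∑ U ∈ ({S, T} : Finset (Finset V)),
        y U / ((cut p U : ℝ) - r + 2) * ((out M U : ℝ) - 1) ≤
        ∑ U ∈ F, y U / ((cut p U : ℝ) - r + 2) * ((out M U : ℝ) - 1) := by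
      refine sum_le_sum_of_subset_of_nonneg ?_ ?_
      · intro U hU
        rw [mem_insert, mem_singleton] at hU
        rcases hU with rfl | rfl
        · exact hSF
        · exact hTF
      · intro U hU _
        refine mul_nonneg (div_nonneg (hy0 U) (by have := hD U hU; linarith)) ?_
        obtain ⟨b, hb⟩ := TH583.HB.out_parity hM.1 U
        obtain ⟨c, hc⟩ := hodd U hU
        have h6 : 1 ≤ out M U := by omega
        have h7 : (1 : ℝ) ≤ out M U := by exact_mod_cast h6
        linarith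
    rw [sum_pair hne] at h5
    have h6 := h3 S hS hSF
    have h7 := h3 T hT hTF
    linarith
  have h5 := hy M S T hM hS hT hST
  have h6 : (r : ℝ) * 1 ≤
      r * ∑ U ∈ F, y U / ((cut p U : ℝ) - r + 2) * ((out M U : ℝ) - 1) :=
    mul_le_mul_of_nonneg_left (by linarith) hr0.le
  linarith

open Classical in
/-- there are more than `r` blocking sets in every family of subsets that contains one of any two
disjoint sets -/
theorem many_of {V : Type} [Fintype V] [DecidableEq V] {r : ℕ} {p : V → V → ℕ} (hr : 1 ≤ r)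
    (hp : RGraph r p)
    (hw : ∀ y : Finset V → ℝ, (∀ S, 0 ≤ y S) →
      (∀ M S T, PMof p M → Blocks r p M S → Blocks r p M T → Disjoint S T → 1 ≤ y S + y T) →
      (r : ℝ) ≤ ∑ S ∈ univ.filter (Blocking r p),
        y S * (((cut p S : ℝ) - r) / ((cut p S : ℝ) - r + 2)))
    (y : Finset V → ℝ) (hy0 : ∀ S, 0 ≤ y S)
    (hy : ∀ S T, Blocking r p S → Blocking r p T → Disjoint S T → 1 ≤ y S + y T) :
    (r : ℝ) < ∑ S ∈ univ.filter (Blocking r p), y S := by
  have h1 := hw y hy0 fun M S T hM hS hT hd => hy S T ⟨M, hM, hS⟩ ⟨M, hM, hT⟩ hd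
  have hr0 : (0 : ℝ) < r := by exact_mod_cast hr
  have hle : ∀ S ∈ univ.filter (Blocking r p),
      y S * (((cut p S : ℝ) - r) / ((cut p S : ℝ) - r + 2)) ≤ y S ∧
      (y S ≠ 0 → y S * (((cut p S : ℝ) - r) / ((cut p S : ℝ) - r + 2)) < y S) := by
    intro S hS
    rw [mem_filter] at hS
    obtain ⟨_, M, _, hM⟩ := hS
    have h2 : (r : ℝ) ≤ cut p S := by exact_mod_cast hp.odd S hM.1.odd
    have h3 : ((cut p S : ℝ) - r) / ((cut p S : ℝ) - r + 2) < 1 := by
      rw [div_lt_one (by linarith)]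
      linarith
    refine ⟨?_, fun h => ?_⟩
    · calc _ ≤ y S * 1 := mul_le_mul_of_nonneg_left h3.le (hy0 S)
        _ = y S := mul_one _
    · have h4 : 0 < y S := lt_of_le_of_ne (hy0 S) (Ne.symm h)
      calc _ < y S * 1 := mul_lt_mul_of_pos_left h3 h4
        _ = y S := mul_one _
  by_cases h0 : ∀ S ∈ univ.filter (Blocking r p), y S = 0
  · exfalso
    rw [sum_eq_zero (fun S hS => by rw [h0 S hS, zero_mul])] at h1
    linarith
  · push Not at h0
    obtain ⟨S, hS, hne⟩ := h0
    exact lt_of_le_of_lt h1 (sum_lt_sum (fun T hT => (hle T hT).1) ⟨S, hS, (hle S hS).2 hne⟩)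

/-- an `r`-graph, `r ≥ 3`, without nontrivial tight cuts in which no perfect matching can be removed
such that an `(r-1)`-graph remains -/
structure Stuck {V : Type} [Fintype V] [DecidableEq V] (r : ℕ) (p : V → V → ℕ) : Prop where
  three : 3 ≤ r
  rgraph : RGraph r p
  notight : NoTight r p
  stuck : ∀ M, PMof p M → ¬ RGraph (r - 1) (minus p M)

/-- the properties of a smallest `r`-graph without Petersen minor that is not a sum of `r` perfect
matchings -/
structure Critical {V : Type} [Fintype V] [DecidableEq V] (r : ℕ) (p : V → V → ℕ) : Prop where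
  three : 3 ≤ r
  rgraph : RGraph r p
  minor : ¬ PetMinor (gr p)
  fourteen : 14 ≤ Fintype.card V
  brick : Brick (gr p)
  cuts : ∀ X : Finset V, Odd X.card → X.card ≠ 1 → Xᶜ.card ≠ 1 → r + 2 ≤ cut p X
  indec : ¬ Splits r p
  sum5 : ¬ H76TW.Sum5 (gr p)
  sides : ¬ ∃ c : V → Bool, ∀ a b a' b' : V, (gr p).Adj a b → (gr p).Adj a' b' → c a = c b →
    c a' = c b' → c a = c a' → a = a' ∨ a = b' ∨ b = a' ∨ b = b'
  perms : ¬ TH100.LV.EvenPerms (gr p).Adj
  colours : ¬ TH100.LV.TwoColour (gr p)
  minimal : ∀ (W : Type) [Fintype W] [DecidableEq W] (s : ℕ) (q : W → W → ℕ), RGraph s q →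
    ¬ PetMinor (gr q) → (Fintype.card W < Fintype.card V ∨ (Fintype.card W = Fintype.card V ∧
      s < r)) → Cover 1 s q

theorem Critical.stuck {V : Type} [Fintype V] [DecidableEq V] {r : ℕ} {p : V → V → ℕ}
    (h : Critical r p) : Stuck r p := by
  refine ⟨h.three, h.rgraph, ?_, fun M hM h1 => h.indec (splits_of_removable
    (by have := h.three; omega) hM h1)⟩
  intro X hX hc
  by_contra hn
  rw [not_or] at hn
  have := h.cuts X hX hn.1 hn.2
  omega

theorem cover_of_critical (n : ℕ)
    (h : ∀ (V : Type) [Fintype V] [DecidableEq V] (r : ℕ) (p : V → V → ℕ),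
      Fintype.card V ≤ n → ¬ Critical r p) :
    ∀ (V : Type) [Fintype V] [DecidableEq V] (r : ℕ) (p : V → V → ℕ), Fintype.card V ≤ n →
      RGraph r p → ¬ PetMinor (gr p) → Cover 1 r p := by
  suffices H : ∀ l m : ℕ, l ≤ n → ∀ (V : Type) [Fintype V] [DecidableEq V], Fintype.card V = l →
      ∀ p : V → V → ℕ, RGraph m p → ¬ PetMinor (gr p) → Cover 1 m p from
    fun V _ _ r p hV hp hg => H _ _ hV V rfl p hp hg
  intro l
  induction l using Nat.strong_induction_on with
  | _ l ihn =>
  intro r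
  induction r using Nat.strong_induction_on with
  | _ r ihr =>
  intro hln V _ _ hV p hp hg
  by_contra hcov
  have hmin : ∀ (W : Type) [Fintype W] [DecidableEq W] (s : ℕ) (q : W → W → ℕ), RGraph s q →
      ¬ PetMinor (gr q) → (Fintype.card W < Fintype.card V ∨ (Fintype.card W = Fintype.card V ∧
        s < r)) → Cover 1 s q := by
    intro W _ _ s q hq hgq hlt
    rcases hlt with h1 | ⟨h1, h2⟩
    · exact ihn _ (by omega) s (by omega) W rfl q hq hgq
    · exact ihr s h2 hln W (by omega) q hq hgq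
  have hsub : ∀ (s t : ℕ) (q q' : V → V → ℕ), 1 ≤ s → 1 ≤ t → s + t = r → RGraph s q →
      RGraph t q' → (∀ u v, p u v = q u v + q' u v) → False := by
    intro s t q q' hs ht hst hq hq' hadd
    have hpet : ∀ w : V → V → ℕ, (∀ u v, w u v ≤ p u v) → ¬ PetMinor (gr w) := by
      intro w hw
      intro hP
      refine hg (pet_oddMinor (gr w) (gr p) ?_ hP)
      refine oddMinor_sub (gr w) (gr w) (gr p) id Function.injective_id ?_ (oddMinor_self _)
      intro a b hab
      unfold gr at hab ⊢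
      rw [SimpleGraph.fromRel_adj] at hab ⊢
      refine ⟨hab.1, ?_⟩
      simp only [id]
      have ha := hw a b
      have hb := hw b a
      rcases hab.2 with h1 | h1
      · left; omega
      · right; omega
    have h1 := hmin V s q hq (hpet q (fun u v => by have := hadd u v; omega))
      (Or.inr ⟨rfl, by omega⟩)
    have h2 := hmin V t q' hq' (hpet q' (fun u v => by have := hadd u v; omega))
      (Or.inr ⟨rfl, by omega⟩)
    have h3 := cover_add hadd h1 h2
    rw [hst] at h3
    exact hcov h3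
  have hindec : ¬ Splits r p := by
    rintro ⟨s, t, q, q', hs, ht, hst, hq, hq', hadd⟩
    exact hsub s t q q' hs ht hst hq hq' hadd
  have hne : 5 ≤ Fintype.card V := by
    by_contra hc
    exact hcov (eight' V r p (by omega) hp)
  refine hcov (step3 1 Pool.Agent.W209.LB.conn3 Pool.Agent.W427.LB.bicrit transport H76TW.bip
    H76TW.span tight2 connSide (fun _ G => ¬ PetMinor G) (fun _ _ H G h1 h2 h3 =>
      h2 (pet_oddMinor H G h1 h3))
    (fun V _ _ r p hc hp => eight' V r p (by omega) hp) V r p hp hg ?_ ?_ ?_)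
  · intro W _ _ s q hW hq hgq
    exact hmin W s q hq hgq (Or.inl hW)
  · intro s hs q hq hgq
    exact hmin V s q hq hgq (Or.inr ⟨rfl, hs⟩)
  · intro h6 hr hnt hb
    exfalso
    have h3 := three_le hp hne hb
    refine h V r p (by omega) ⟨h3, hp, hg, ?_, hb, ?_, hindec, ?_, ?_, ?_, ?_, hmin⟩
    · by_contra hc
      exact hcov (cover_known hp (Or.inl ⟨by omega, hg⟩))
    · intro X hX h1 h2
      exact cuts_of hp hnt hX h1 h2
    · intro h1
      exact hcov (cover_known hp (Or.inr (Or.inl h1)))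
    · intro h1
      exact hcov (cover_known hp (Or.inr (Or.inr h1)))
    · intro h1
      exact hcov (TH100.LV.cover_known' hp (Or.inr (Or.inl h1)))
    · intro h1
      exact hcov (TH100.LV.cover_known' hp (Or.inr (Or.inr h1)))

theorem not_critical_of_cover {V : Type} [Fintype V] [DecidableEq V] {r : ℕ} {p : V → V → ℕ}
    (h : RGraph r p → ¬ PetMinor (gr p) → Cover 1 r p) : ¬ Critical r p := fun hc =>
  hc.indec (splits_of_cover (by have := hc.three; omega) (h hc.rgraph hc.minor))

theorem decomp_of_cover (n : ℕ)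
    (h : ∀ (V : Type) [Fintype V] [DecidableEq V] (r : ℕ) (p : V → V → ℕ), Fintype.card V ≤ n →
      RGraph r p → ¬ PetMinor (gr p) → Cover 1 r p)
    (V E : Type) [Fintype V] [Fintype E] [DecidableEq E] (ends : E → Sym2 V)
    (hV : Fintype.card V ≤ n) (hG : ¬ PetMinor (SimpleGraph.fromEdgeSet (Set.range ends))) :
    Decomp ends := by
  refine decomp_of (fun V G => Nat.card V ≤ n ∧ ¬ PetMinor G) ?_
    (fun V _ _ r p hp hg => h V r p ?_ hp hg.2) V E ends ⟨?_, hG⟩
  · intro V G H hle hn
    refine ⟨hn.1, fun hP => hn.2 (pet_oddMinor H G ?_ hP)⟩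
    exact oddMinor_sub H H G id Function.injective_id hle (oddMinor_self _)
  · rw [← Nat.card_eq_fintype_card]
    exact hg.1
  · rw [Nat.card_eq_fintype_card]
    exact hV

open Classical in
/-- the structure of stuck `r`-graphs -/
theorem Stuck.structure {V : Type} [Fintype V] [DecidableEq V] {r : ℕ} {p : V → V → ℕ}
    (h : Stuck r p) :
    (∀ M, PMof p M → ∃ S T : Finset V, Disjoint S T ∧ Blocks r p M S ∧ Blocks r p M T) ∧
    (∀ y : Finset V → ℝ, (∀ S, 0 ≤ y S) →
      (∀ M S T, PMof p M → Blocks r p M S → Blocks r p M T → Disjoint S T → 1 ≤ y S + y T) →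
      (r : ℝ) ≤ ∑ S ∈ univ.filter (Blocking r p),
        y S * (((cut p S : ℝ) - r) / ((cut p S : ℝ) - r + 2))) ∧
    2 * r < (univ.filter (Blocking r p)).card ∧
    (∀ v : V, r < (univ.filter fun S => Blocking r p S ∧ v ∉ S).card) ∧
    (Brick (gr p) → r + Fintype.card V ≤ (pairs p).card) := by
  obtain ⟨hr, hp, hN, h⟩ := h
  have hbl : ∀ M, PMof p M →
      ∃ S T : Finset V, Disjoint S T ∧ Blocks r p M S ∧ Blocks r p M T := by
    intro M hM
    rcases blocked_of hr hp hN hM with h1 | h1
    · exact absurd h1 (h M hM)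
    · exact h1
  have hw := weights_of (by omega) hp hbl
  refine ⟨hbl, hw, ?_, ?_, ?_⟩
  · have h1 := many_of (by omega) hp hw (fun _ => 1 / 2) (fun _ => by norm_num)
      (fun _ _ _ _ _ => by norm_num)
    rw [sum_const, nsmul_eq_mul] at h1
    have h2 : (2 : ℝ) * r < (univ.filter (Blocking r p)).card := by linarith
    exact_mod_cast h2
  · intro v
    have h1 := many_of (by omega) hp hw (fun S => if v ∉ S then 1 else 0)
      (fun _ => by split_ifs <;> norm_num)
      (fun S T _ _ hST => by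
        by_cases hS : v ∈ S
        · have hT : v ∉ T := Finset.disjoint_left.1 hST hS
          simp [hS, hT]
        · by_cases hT : v ∈ T
          · simp [hS, hT]
          · simp [hS, hT])
    rw [← sum_filter, filter_filter, sum_const, nsmul_eq_mul, mul_one] at h1
    exact_mod_cast h1
  · intro hb
    refine bound hp (by omega) hb ?_ h
    obtain ⟨M, hM, _⟩ := TH467.DC.avg (show 1 ≤ r by omega) hp ∅ (fun _ => 0)
    obtain ⟨S, _, _, hS, _⟩ := hbl M hM
    have h1 := hS.2.1
    have h2 : (S.filter fun v => M v ∉ S).card ≤ Fintype.card V := card_le_univ _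
    omega

end Pool.Agent.TH849.LB
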