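import Pool.Agent.TH849.LB.Split
import Pool.Agent.TH467.DC.Avg
import Mathlib.Analysis.Convex.Caratheodory
import Mathlib.Analysis.Convex.Topology
import Mathlib.Analysis.LocallyConvex.Separation
import Mathlib.LinearAlgebra.AffineSpace.FiniteDimensional

/-!
# Indecomposable `r`-graphs on bricks satisfy `r ≤ |E| - |V|`
-/

set_option autoImplicit false

namespace Pool.Agent.TH849.LB

open Finset H76FC H76TX H76TY Pool.Agent.W315.LB

variable {V : Type} [Fintype V] [DecidableEq V]

open Classical in
/-- the pairs of adjacent vertices -/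
noncomputable def pairs (p : V → V → ℕ) : Finset (Finset V) :=
  univ.filter fun X => ∃ u v, 0 < p u v ∧ X = {u, v}

open Classical in
/-- incidence vector of the edges `{x, M x}`, `x ∈ A` -/
noncomputable def vec (p : V → V → ℕ) (A : Finset V) (M : V → V) : {X // X ∈ pairs p} → ℝ :=
  fun X => if ∃ x ∈ A, X.1 = {x, M x} then 1 else 0

theorem pair_eq {u v x y : V} (h : ({u, v} : Finset V) = {x, y}) (hx : x = u) (huv : u ≠ v) :
    y = v := by
  subst hx
  have h1 : v ∈ ({x, y} : Finset V) := by rw [← h]; simp
  rw [mem_insert, mem_singleton] at h1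
  rcases h1 with h1 | h1
  · exact absurd h1.symm huv
  · exact h1.symm

theorem vec_pair {p : V → V → ℕ} {M : V → V} (hM : IsPM M) {X : {X // X ∈ pairs p}} {u v : V}
    (hX : X.1 = {u, v}) (huv : u ≠ v) : vec p univ M X = if M u = v then 1 else 0 := by
  unfold vec
  congr 1
  rw [hX]
  apply propext
  constructor
  · rintro ⟨x, _, hx⟩
    have h1 : x ∈ ({u, v} : Finset V) := by rw [hx]; simp
    rw [mem_insert, mem_singleton] at h1
    rcases h1 with h1 | h1
    · have h2 := pair_eq hx h1 huv
      rw [h1] at h2
      exact h2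
    · have h2 : M x = u := pair_eq ((pair_comm v u).trans hx) h1 huv.symm
      rw [← h2, hM.1, h1]
  · intro h
    exact ⟨u, mem_univ _, by rw [h]⟩

theorem out_pair {M : V → V} (hM : IsPM M) {u v : V} (huv : u ≠ v) :
    (out M {u, v} : ℝ) = 2 - 2 * (if M u = v then 1 else 0) := by
  unfold out
  have huM : M u = v ↔ M v = u := by
    constructor
    · rintro rfl; exact hM.1 u
    · rintro rfl; exact hM.1 v
  split_ifs with h
  · have h1 : (({u, v} : Finset V).filter fun x => M x ∉ ({u, v} : Finset V)) = ∅ := by
      rw [filter_eq_empty_iff]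
      intro x hx
      rw [mem_insert, mem_singleton] at hx
      rw [not_not, mem_insert, mem_singleton]
      rcases hx with rfl | rfl
      · exact Or.inr h
      · exact Or.inl (huM.1 h)
    rw [h1]
    simp
  · have h1 : (({u, v} : Finset V).filter fun x => M x ∉ ({u, v} : Finset V)) = {u, v} := by
      rw [filter_eq_self]
      intro x hx
      rw [mem_insert, mem_singleton] at hx
      rw [mem_insert, mem_singleton, not_or]
      rcases hx with rfl | rfl
      · exact ⟨hM.2 x, h⟩
      · exact ⟨fun h' => h (huM.2 h'), hM.2 x⟩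
    rw [h1, card_pair huv]
    simp

theorem cut_pair {r : ℕ} {p : V → V → ℕ} (hp : RGraph r p) {u v : V} (huv : u ≠ v) :
    (cut p {u, v} : ℝ) = 2 * r - 2 * p u v := by
  unfold cut
  rw [sum_pair huv]
  have h : ∀ a, ∑ b ∈ ({u, v} : Finset V)ᶜ, p a b + (p a u + p a v) = r := by
    intro a
    rw [← hp.reg a, ← sum_add_sum_compl ({u, v} : Finset V), sum_pair huv, add_comm]
  have hu := h u
  have hv := h v
  rw [hp.loopless, zero_add] at hu
  rw [hp.loopless, add_zero, hp.symm v u] at hv
  have hu' : ((∑ b ∈ ({u, v} : Finset V)ᶜ, p u b : ℕ) : ℝ) + p u v = r := by exact_mod_cast hu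
  have hv' : ((∑ b ∈ ({u, v} : Finset V)ᶜ, p v b : ℕ) : ℝ) + p u v = r := by exact_mod_cast hv
  rw [Nat.cast_add]
  linarith

/-- the degree map -/
noncomputable def deg (p : V → V → ℕ) : ({X // X ∈ pairs p} → ℝ) →ₗ[ℝ] (V → ℝ) where
  toFun x v := ∑ X : {X // X ∈ pairs p}, if v ∈ X.1 then x X else 0
  map_add' x y := by
    ext v
    simp only [Pi.add_apply]
    rw [← sum_add_distrib]
    exact sum_congr rfl fun X _ => by split_ifs <;> simp
  map_smul' c x := by
    ext v
    simp only [Pi.smul_apply, smul_eq_mul, RingHom.id_apply]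
    rw [mul_sum]
    exact sum_congr rfl fun X _ => by split_ifs <;> simp

theorem deg_vec {p : V → V → ℕ} {A : Finset V} {M : V → V}
    (hM : ∀ x ∈ A, M x ∈ A ∧ M (M x) = x ∧ 0 < p x (M x)) (v : V) :
    deg p (vec p A M) v = if v ∈ A then 1 else 0 := by
  classical
  show (∑ X : {X // X ∈ pairs p}, if v ∈ X.1 then vec p A M X else 0) = _
  split_ifs with hv
  · obtain ⟨h1, h2, h3⟩ := hM v hv
    have hmem : ({v, M v} : Finset V) ∈ pairs p := by
      unfold pairs
      rw [mem_filter]
      exact ⟨mem_univ _, v, M v, h3, rfl⟩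
    rw [sum_eq_single ⟨{v, M v}, hmem⟩]
    · simp only [mem_insert, true_or, if_true]
      unfold vec
      rw [if_pos ⟨v, hv, rfl⟩]
    · intro X _ hX
      split_ifs with hvX
      · unfold vec
        rw [if_neg]
        rintro ⟨x, hx, hxX⟩
        apply hX
        apply Subtype.ext
        rw [hxX] at hvX ⊢
        show ({x, M x} : Finset V) = {v, M v}
        rw [mem_insert, mem_singleton] at hvX
        rcases hvX with h | h
        · rw [h]
        · have : M v = x := by rw [h]; exact (hM x hx).2.1
          rw [this, ← h]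
          exact pair_comm _ _
      · rfl
    · intro h
      exact absurd (mem_univ _) h
  · refine sum_eq_zero fun X _ => ?_
    split_ifs with hvX
    · unfold vec
      rw [if_neg]
      rintro ⟨x, hx, hxX⟩
      rw [hxX, mem_insert, mem_singleton] at hvX
      rcases hvX with h | h
      · exact hv (h ▸ hx)
      · exact hv (h ▸ (hM x hx).1)
    · rfl

theorem deg_surj {r : ℕ} {p : V → V → ℕ} (hp : RGraph r p) (hr : 1 ≤ r) (hb : Brick (gr p))
    (hc : 3 ≤ Fintype.card V) : Function.Surjective (deg p) := by
  classical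
  rw [← LinearMap.range_eq_top]
  have hpos : ∀ a b, (gr p).Adj a b → 0 < p a b := by
    intro a b hab
    rcases Y13.gr_adj p a b hab with h | h
    · exact h
    · rw [hp.symm]; exact h
  have h1 : (fun _ => (1 : ℝ)) ∈ LinearMap.range (deg p) := by
    obtain ⟨M, hM, _⟩ := TH467.DC.avg hr hp ∅ (fun _ => 0)
    refine ⟨vec p univ M, ?_⟩
    ext v
    rw [deg_vec (fun x _ => ⟨mem_univ _, hM.1.1 x, hM.2 x⟩)]
    simp
  have h2 : ∀ u v : V, u ≠ v → (Pi.single u (1 : ℝ) + Pi.single v (1 : ℝ) : V → ℝ) ∈
      LinearMap.range (deg p) := by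
    intro u v huv
    obtain ⟨M, hM1, hM2, hM3⟩ := (hb u v huv).2
    have hMv : M v = u := by rw [← hM2, hM1]
    have h3 : deg p (vec p (univ \ {u, v}) M) = fun x => if x ∈ (univ \ {u, v} : Finset V) then 1 else 0 := by
      ext x
      apply deg_vec
      intro x hx
      rw [mem_sdiff, mem_insert, mem_singleton, not_or] at hx
      have hMx : M x ≠ u ∧ M x ≠ v := by
        constructor
        · intro h
          have := hM1 x
          rw [h, hM2] at this
          exact hx.2.2 this.symm
        · intro h
          have := hM1 x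
          rw [h, hMv] at this
          exact hx.2.1 this.symm
      refine ⟨?_, hM1 x, hpos _ _ (hM3 x hx.2.1 hx.2.2)⟩
      rw [mem_sdiff, mem_insert, mem_singleton, not_or]
      exact ⟨mem_univ _, hMx⟩
    have h4 := Submodule.sub_mem _ h1 (LinearMap.mem_range_self (deg p) (vec p (univ \ {u, v}) M))
    rw [h3] at h4
    convert h4 using 1
    ext x
    simp only [Pi.add_apply, Pi.sub_apply, Pi.single_apply, mem_sdiff, mem_univ, true_and,
      mem_insert, mem_singleton, not_or]
    by_cases hxu : x = u
    · subst hxu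
      simp [huv]
    · by_cases hxv : x = v
      · subst hxv
        simp [hxu]
      · simp [hxu, hxv]
  have h5 : ∀ u : V, (Pi.single u (1 : ℝ) : V → ℝ) ∈ LinearMap.range (deg p) := by
    intro u
    obtain ⟨v, w, huv, huw, hvw⟩ : ∃ v w : V, u ≠ v ∧ u ≠ w ∧ v ≠ w := by
      have h6 : 2 ≤ (univ.erase u).card := by
        rw [card_erase_of_mem (mem_univ u), card_univ]; omega
      obtain ⟨v, hv, w, hw, hvw⟩ := one_lt_card.1 (show 1 < (univ.erase u).card by omega)
      exact ⟨v, w, (ne_of_mem_erase hv).symm, (ne_of_mem_erase hw).symm, hvw⟩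
    have h7 := Submodule.smul_mem _ (1 / 2 : ℝ) (Submodule.sub_mem _ (Submodule.add_mem _
      (h2 u v huv) (h2 u w huw)) (h2 v w hvw))
    convert h7 using 1
    ext x
    simp only [Pi.smul_apply, Pi.sub_apply, Pi.add_apply, smul_eq_mul]
    ring
  rw [eq_top_iff]
  intro f _
  have h8 : f = ∑ u, f u • (Pi.single u (1 : ℝ) : V → ℝ) := by
    ext x
    rw [Finset.sum_apply]
    simp [Pi.single_apply]
  rw [h8]
  exact Submodule.sum_mem _ fun u _ => Submodule.smul_mem _ _ (h5 u)

/-- Edmonds' theorem -/
theorem mem_hull {r : ℕ} {p : V → V → ℕ} (hp : RGraph r p) (hr : 1 ≤ r) :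
    (fun X : {X // X ∈ pairs p} => 1 - (cut p X.1 : ℝ) / (2 * r)) ∈
      convexHull ℝ (Set.range fun M : {M // PMof p M} => vec p univ M.1) := by
  classical
  by_contra hn
  have hfin : (Set.range fun M : {M // PMof p M} => vec p univ M.1).Finite := Set.finite_range _
  obtain ⟨f, u, h1, h2⟩ := geometric_hahn_banach_closed_point (convex_convexHull ℝ _)
    (hfin.isClosed_convexHull ℝ) hn
  have hr0 : (0 : ℝ) < r := by exact_mod_cast hr
  have hf : ∀ x : {X // X ∈ pairs p} → ℝ, f x = ∑ X, x X * f (Pi.single X 1) := by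
    intro x
    have h3 : x = ∑ X, x X • (Pi.single X (1 : ℝ) : {X // X ∈ pairs p} → ℝ) := by
      ext Y
      rw [Finset.sum_apply]
      simp [Pi.single_apply]
    conv_lhs => rw [h3]
    rw [map_sum]
    exact sum_congr rfl fun X _ => by rw [map_smul, smul_eq_mul]
  obtain ⟨M, hM, h3⟩ := TH467.DC.avg hr hp (pairs p)
    (fun X => if h : X ∈ pairs p then f (Pi.single ⟨X, h⟩ 1) else 0)
  have hX : ∀ X : {X // X ∈ pairs p}, vec p univ M X = 1 - (out M X.1 : ℝ) / 2 := by
    rintro ⟨X, hX⟩
    have hX' := hX
    unfold pairs at hX'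
    rw [mem_filter] at hX'
    obtain ⟨_, a, b, hab, rfl⟩ := hX'
    have hne : a ≠ b := by
      rintro rfl
      rw [hp.loopless] at hab
      exact lt_irrefl _ hab
    rw [vec_pair hM.1 rfl hne, out_pair hM.1 hne]
    ring
  have h4 := h1 (vec p univ M) (subset_convexHull ℝ _ ⟨⟨M, hM⟩, rfl⟩)
  have h5 : f (fun X : {X // X ∈ pairs p} => 1 - (cut p X.1 : ℝ) / (2 * r)) ≤
      f (vec p univ M) := by
    rw [hf, hf, ← sub_nonneg, ← sum_sub_distrib]
    have h6 : ∀ X : {X // X ∈ pairs p}, vec p univ M X * f (Pi.single X 1) -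
        (1 - (cut p X.1 : ℝ) / (2 * r)) * f (Pi.single X 1) =
        (f (Pi.single X 1) * cut p X.1 - r * (f (Pi.single X 1) * out M X.1)) / (2 * r) := by
      intro X
      rw [hX]
      field_simp
      ring
    rw [sum_congr rfl fun X _ => h6 X, ← sum_div, sum_sub_distrib, ← mul_sum]
    apply div_nonneg _ (by positivity)
    rw [sub_nonneg]
    have h7 : ∀ g : Finset V → ℝ, ∑ X ∈ pairs p,
        (if h : X ∈ pairs p then f (Pi.single ⟨X, h⟩ 1) else 0) * g X =
        ∑ X : {X // X ∈ pairs p}, f (Pi.single X 1) * g X.1 := by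
      intro g
      rw [← Finset.sum_attach, Finset.univ_eq_attach]
      refine sum_congr rfl fun X _ => ?_
      rw [dif_pos X.2]
    rw [h7, h7] at h3
    exact h3
  linarith

/-- an `r`-graph on a brick in which no perfect matching leaves an `(r-1)`-graph has
`r ≤ |E| - |V|` -/
theorem bound {r : ℕ} {p : V → V → ℕ} (hp : RGraph r p) (hr : 1 ≤ r) (hb : Brick (gr p))
    (hc : 3 ≤ Fintype.card V) (hS : ∀ M, PMof p M → ¬ RGraph (r - 1) (minus p M)) :
    r + Fintype.card V ≤ (pairs p).card := by
  classical
  have hr0 : (0 : ℝ) < r := by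
    have : 0 < r := by omega
    exact_mod_cast this
  obtain ⟨ι, _, z, w, hz, hind, hw, hw1, hsum⟩ := eq_pos_convex_span_of_mem_convexHull
    (mem_hull hp (by omega))
  choose N hN using fun i : ι => hz ⟨i, rfl⟩
  have hNM : ∀ i, vec p univ (N i).1 = z i := hN
  -- dimension
  have hdim : Fintype.card ι + Fintype.card V ≤ (pairs p).card + 1 := by
    have h1 := hind.card_le_finrank_succ
    have h2 : vectorSpan ℝ (Set.range z) ≤ LinearMap.ker (deg p) := by
      rw [vectorSpan_def, Submodule.span_le]
      rintro _ ⟨_, ⟨i, rfl⟩, _, ⟨j, rfl⟩, rfl⟩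
      show z i -ᵥ z j ∈ LinearMap.ker (deg p)
      rw [vsub_eq_sub, LinearMap.mem_ker, map_sub, ← hNM, ← hNM, sub_eq_zero]
      ext v
      rw [deg_vec (fun x _ => ⟨mem_univ _, (N i).2.1.1 x, (N i).2.2 x⟩),
        deg_vec (fun x _ => ⟨mem_univ _, (N j).2.1.1 x, (N j).2.2 x⟩)]
    have h3 := Submodule.finrank_mono h2
    have h4 := LinearMap.finrank_range_add_finrank_ker (deg p)
    rw [LinearMap.range_eq_top.2 (deg_surj hp (by omega) hb hc), finrank_top,
      Module.finrank_fintype_fun_eq_card, Module.finrank_fintype_fun_eq_card,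
      Fintype.card_coe] at h4
    omega
  -- multiplicities
  have hmul : ∀ u v, (p u v : ℝ) = ∑ i, (r * w i) * (if (N i).1 u = v then 1 else 0) := by
    intro u v
    by_cases huv : 0 < p u v
    · have hne : u ≠ v := by
        rintro rfl
        rw [hp.loopless] at huv
        exact lt_irrefl _ huv
      have hmem : ({u, v} : Finset V) ∈ pairs p := by
        unfold pairs
        rw [mem_filter]
        exact ⟨mem_univ _, u, v, huv, rfl⟩
      have h1 := congrFun hsum ⟨{u, v}, hmem⟩
      rw [Finset.sum_apply] at h1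
      simp only [Pi.smul_apply, smul_eq_mul] at h1
      rw [cut_pair hp hne] at h1
      have h2 : ∀ i, w i * z i ⟨{u, v}, hmem⟩ = w i * (if (N i).1 u = v then 1 else 0) := by
        intro i
        rw [← hNM, vec_pair (N i).2.1 rfl hne]
      rw [sum_congr rfl fun i _ => h2 i] at h1
      rw [sum_congr rfl fun i _ => mul_assoc (r : ℝ) (w i) _, ← mul_sum, h1]
      field_simp
      ring
    · have h0 : p u v = 0 := by omega
      rw [h0, Nat.cast_zero, eq_comm]
      refine sum_eq_zero fun i _ => ?_
      rw [if_neg, mul_zero]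
      intro h
      have h1 := (N i).2.2 u
      rw [h] at h1
      omega
  have hcut : ∀ X : Finset V, (cut p X : ℝ) = ∑ i, (r * w i) * out (N i).1 X := by
    intro X
    unfold cut
    push_cast
    rw [sum_congr rfl fun u _ => sum_congr rfl fun v _ => hmul u v]
    rw [sum_congr rfl fun u _ => sum_comm, sum_comm]
    refine sum_congr rfl fun i _ => ?_
    unfold out
    rw [card_filter]
    push_cast
    rw [mul_sum]
    refine sum_congr rfl fun u _ => ?_
    rw [← mul_sum, sum_ite_eq]
    simp only [mem_compl]
  -- every weight is less than one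
  have hlt : ∀ i, r * w i < 1 := by
    intro i
    by_contra hge
    rw [not_lt] at hge
    refine hS _ (N i).2 ?_
    have hM := (N i).2
    have hadd : ∀ u v, minus p (N i).1 u v + (if (N i).1 u = v then 1 else 0) = p u v := by
      intro u v
      unfold minus
      split_ifs with h
      · have := hM.2 u
        rw [h] at this
        omega
      · rfl
    have hsymm : ∀ u v, ((N i).1 u = v) ↔ ((N i).1 v = u) := by
      intro u v
      constructor
      · rintro rfl; exact hM.1.1 u
      · rintro rfl; exact hM.1.1 v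
    refine ⟨fun v => ?_, fun u v => ?_, fun v => ?_, fun X hX => ?_⟩
    · have := hadd v v
      rw [hp.loopless] at this
      omega
    · have h1 := hadd u v
      have h2 := hadd v u
      rw [hp.symm v u] at h2
      simp only [hsymm u v] at h1
      omega
    · have h1 : ∑ u, minus p (N i).1 v u + ∑ u, (if (N i).1 v = u then 1 else 0) = r := by
        rw [← sum_add_distrib, ← hp.reg v]
        exact sum_congr rfl fun u _ => hadd v u
      rw [sum_ite_eq] at h1
      simp only [mem_univ, if_true] at h1
      omega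
    · have h1 : cut (minus p (N i).1) X + out (N i).1 X = cut p X := by
        unfold cut out
        rw [card_filter, ← sum_add_distrib]
        refine sum_congr rfl fun u _ => ?_
        have h2 : (if (N i).1 u ∉ X then 1 else 0) = ∑ v ∈ Xᶜ, (if (N i).1 u = v then 1 else 0) := by
          rw [sum_ite_eq]
          simp only [mem_compl]
        rw [h2, ← sum_add_distrib]
        exact sum_congr rfl fun v _ => hadd u v
      have h2 : ∀ j, (1 : ℝ) ≤ out (N j).1 X := by
        intro j
        have h3 : 1 ≤ out (N j).1 X := by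
          by_contra hlt
          have h0 : out (N j).1 X = 0 := by omega
          unfold out at h0
          rw [card_eq_zero, filter_eq_empty_iff] at h0
          refine (Nat.not_even_iff_odd.2 hX) (even_of_invol X (N j).1 (N j).2.1.1 (N j).2.1.2 ?_)
          intro u hu
          have := h0 hu
          rwa [not_not] at this
        exact_mod_cast h3
      have h3 : (r : ℝ) ≤ cut (minus p (N i).1) X + 1 := by
        have h4 : (cut (minus p (N i).1) X : ℝ) + out (N i).1 X = cut p X := by exact_mod_cast h1
        rw [hcut] at h4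
        have h5 : (r : ℝ) = ∑ j, (r * w j) := by rw [← mul_sum, hw1, mul_one]
        have h6 : ∑ j, (r * w j) * out (N j).1 X =
            ∑ j, ((r * w j) - if j = i then 1 else 0) * out (N j).1 X + out (N i).1 X := by
          rw [sum_congr rfl fun j _ => sub_mul _ _ _, sum_sub_distrib]
          simp
        have h7 : ∑ j, ((r * w j) - if j = i then 1 else 0) * (1 : ℝ) ≤
            ∑ j, ((r * w j) - if j = i then 1 else 0) * out (N j).1 X := by
          refine sum_le_sum fun j _ => mul_le_mul_of_nonneg_left (h2 j) ?_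
          split_ifs with hj
          · subst hj; linarith
          · rw [sub_zero]; exact mul_nonneg hr0.le (hw j).le
        have h8 : ∑ j, ((r * w j) - if j = i then 1 else 0) * (1 : ℝ) = r - 1 := by
          rw [sum_congr rfl fun j _ => mul_one _, sum_sub_distrib, ← h5]
          simp
        linarith
      have h4 : r ≤ cut (minus p (N i).1) X + 1 := by exact_mod_cast h3
      omega
  have hι : (r : ℝ) < Fintype.card ι := by
    have hne : (univ : Finset ι).Nonempty := by
      rw [nonempty_iff_ne_empty]
      intro h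
      rw [h] at hw1
      simp at hw1
    calc (r : ℝ) = ∑ i, r * w i := by rw [← mul_sum, hw1, mul_one]
      _ < ∑ _i : ι, (1 : ℝ) := sum_lt_sum_of_nonempty hne fun i _ => hlt i
      _ = Fintype.card ι := by simp
  have hι' : r < Fintype.card ι := by exact_mod_cast hι
  omega

end Pool.Agent.TH849.LB
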