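import Pool.Agent.W315.MD.Main

/-!
# Sums of `r`-graphs and the reduction to bricks that are not sums of smaller `r`-graphs
-/

set_option autoImplicit false

namespace Pool.Agent.TH849.LB

open Finset H76FC H76TX H76TY Pool.Agent.W315.LB

/-- the multigraph `p` is the sum of an `s`-graph and a `t`-graph, `s + t = r`, `s, t ≥ 1` -/
def Splits {V : Type} [Fintype V] [DecidableEq V] (r : ℕ) (p : V → V → ℕ) : Prop :=
  ∃ (s t : ℕ) (q q' : V → V → ℕ), 1 ≤ s ∧ 1 ≤ t ∧ s + t = r ∧ RGraph s q ∧ RGraph t q' ∧
    ∀ u v, p u v = q u v + q' u v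

theorem cover_add {V : Type} [Fintype V] [DecidableEq V] {k s t : ℕ} {p q q' : V → V → ℕ}
    (h : ∀ u v, p u v = q u v + q' u v) (hq : Cover k s q) (hq' : Cover k t q') :
    Cover k (s + t) p := by
  obtain ⟨M, hM, hc⟩ := hq
  obtain ⟨M', hM', hc'⟩ := hq'
  have e : k * (s + t) = k * s + k * t := Nat.mul_add k s t
  have key : ∃ N : Fin (k * s + k * t) → V → V, (∀ i, IsPM (N i)) ∧
      ∀ u v, (univ.filter fun i => N i u = v).card = k * p u v := by
    refine ⟨fun i => Fin.addCases M M' i, fun i => ?_, fun u v => ?_⟩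
    · refine Fin.addCases (fun a => ?_) (fun a => ?_) i
      · simp only [Fin.addCases_left]; exact hM a
      · simp only [Fin.addCases_right]; exact hM' a
    · rw [h, Nat.mul_add, ← hc, ← hc', card_filter, card_filter, card_filter, Fin.sum_univ_add]
      simp only [Fin.addCases_left, Fin.addCases_right]
  rw [← e] at key
  exact key

theorem even_of_invol {V : Type} [DecidableEq V] (X : Finset V) (M : V → V)
    (h1 : ∀ v, M (M v) = v) (h2 : ∀ v, M v ≠ v) (h3 : ∀ v ∈ X, M v ∈ X) : Even X.card := by
  have h := Finset.sum_involution (s := X) (f := fun _ => (1 : ZMod 2)) (fun v _ => M v)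
    (fun v _ => by decide) (fun v _ _ => h2 v) (fun v hv => h3 v hv) (fun v _ => h1 v)
  rw [Finset.sum_const, nsmul_eq_mul, mul_one] at h
  exact (ZMod.natCast_eq_zero_iff_even).1 h

theorem rgraph_pms {V : Type} [Fintype V] [DecidableEq V] {I : Type} [Fintype I] (M : I → V → V)
    (hM : ∀ i, IsPM (M i)) :
    RGraph (Fintype.card I) (fun u v => (univ.filter fun i => M i u = v).card) := by
  refine ⟨fun v => ?_, fun u v => ?_, fun v => ?_, fun X hX => ?_⟩
  · rw [card_eq_zero]
    ext i
    simp [(hM i).2 v]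
  · congr 1
    ext i
    simp only [mem_filter, mem_univ, true_and]
    constructor
    · intro h; rw [← h, (hM i).1]
    · intro h; rw [← h, (hM i).1]
  · simp only [card_filter]
    rw [sum_comm]
    simp
  · unfold cut
    simp only [card_filter]
    have h1 : ∑ u ∈ X, ∑ v ∈ Xᶜ, ∑ i : I, (if M i u = v then 1 else 0) =
        ∑ i : I, ∑ u ∈ X, ∑ v ∈ Xᶜ, (if M i u = v then 1 else 0) := by
      rw [sum_congr rfl (fun u _ => sum_comm)]
      exact sum_comm
    rw [h1]
    calc Fintype.card I = ∑ i : I, 1 := by simp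
      _ ≤ _ := by
        refine sum_le_sum fun i _ => ?_
        by_contra hlt
        have h0 : ∑ u ∈ X, ∑ v ∈ Xᶜ, (if M i u = v then 1 else 0) = 0 := by omega
        rw [sum_eq_zero_iff] at h0
        refine (Nat.not_even_iff_odd.2 hX) (even_of_invol X (M i) (hM i).1 (hM i).2 ?_)
        intro u hu
        by_contra hn
        have h2 := h0 u hu
        rw [sum_eq_zero_iff] at h2
        have h3 := h2 (M i u) (mem_compl.2 hn)
        simp at h3

/-- a perfect matching whose removal leaves an `(r - 1)`-graph -/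
theorem splits_of_removable {V : Type} [Fintype V] [DecidableEq V] {r : ℕ} {p : V → V → ℕ}
    (hr : 2 ≤ r) {M : V → V} (hM : PMof p M) (h : RGraph (r - 1) (minus p M)) : Splits r p := by
  have h1 := rgraph_pms (I := Unit) (fun _ => M) (fun _ => hM.1)
  have h2 : ∀ u v, (univ.filter fun _ : Unit => M u = v).card = if M u = v then 1 else 0 := by
    intro u v
    split_ifs with h
    · simp [h]
    · simp [h]
  refine ⟨1, r - 1, _, minus p M, le_rfl, by omega, by omega, h1, h, fun u v => ?_⟩
  show p u v = (univ.filter fun _ : Unit => M u = v).card + minus p M u v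
  rw [h2]
  unfold minus
  split_ifs with h
  · have := hM.2 u
    rw [h] at this
    omega
  · omega

/-- a sum of `r` perfect matchings, `r ≥ 2`, splits -/
theorem splits_of_cover {V : Type} [Fintype V] [DecidableEq V] {r : ℕ} {p : V → V → ℕ}
    (hr : 2 ≤ r) (h : Cover 1 r p) : Splits r p := by
  obtain ⟨M, hM, hc⟩ := h
  have e : 1 * r = 1 + (r - 1) := by omega
  have key : ∃ N : Fin (1 + (r - 1)) → V → V, (∀ i, IsPM (N i)) ∧
      ∀ u v, (univ.filter fun i => N i u = v).card = 1 * p u v := by
    rw [← e]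
    exact ⟨M, hM, hc⟩
  obtain ⟨N, hN, hNc⟩ := key
  have h1 := rgraph_pms (fun i : Fin 1 => N (Fin.castAdd (r - 1) i)) (fun i => hN _)
  have h2 := rgraph_pms (fun i : Fin (r - 1) => N (Fin.natAdd 1 i)) (fun i => hN _)
  rw [Fintype.card_fin] at h1 h2
  refine ⟨1, r - 1, _, _, le_rfl, by omega, by omega, h1, h2, fun u v => ?_⟩
  have h3 := hNc u v
  rw [one_mul, card_filter, Fin.sum_univ_add] at h3
  rw [← h3, card_filter, card_filter]

/-- in a brick with at least five vertices every vertex has three neighbours -/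
theorem three_le {V : Type} [Fintype V] [DecidableEq V] {r : ℕ} {p : V → V → ℕ}
    (hp : RGraph r p) (hc : 5 ≤ Fintype.card V) (hb : Brick (gr p)) : 3 ≤ r := by
  by_contra hlt
  have hne : Nonempty V := Fintype.card_pos_iff.1 (by omega)
  obtain ⟨u⟩ := hne
  set N := univ.filter (fun w => 0 < p u w) with hN
  have hNc : N.card ≤ 2 := by
    have h1 : N.card ≤ ∑ w, p u w := by
      rw [hN, card_filter]
      refine sum_le_sum fun w _ => ?_
      split_ifs with h <;> omega
    rw [hp.reg] at h1
    omega
  have hNu : N ⊆ univ.erase u := by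
    intro w hw
    rw [mem_erase]
    refine ⟨?_, mem_univ _⟩
    rintro rfl
    rw [hN, mem_filter, hp.loopless] at hw
    omega
  obtain ⟨T, hNT, hTu, hT⟩ := exists_subsuperset_card_eq hNu hNc
    (by rw [card_erase_of_mem (mem_univ u), card_univ]; omega)
  obtain ⟨x, y, hxy, rfl⟩ := card_eq_two.1 hT
  have hux : u ≠ x := by
    have := hTu (mem_insert_self x {y})
    rw [mem_erase] at this
    exact this.1.symm
  have huy : u ≠ y := by
    have := hTu (mem_insert_of_mem (mem_singleton_self y))
    rw [mem_erase] at this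
    exact this.1.symm
  obtain ⟨w, hw⟩ : ∃ w, w ∉ ({u, x, y} : Finset V) := by
    by_contra h
    push Not at h
    have h1 : (univ : Finset V) ⊆ {u, x, y} := fun w _ => h w
    have h2 := card_le_card h1
    have h3 : ({u, x, y} : Finset V).card ≤ 3 := card_le_three
    rw [card_univ] at h2
    omega
  simp only [mem_insert, mem_singleton, not_or] at hw
  have hcon := (hb x y hxy).1
  obtain ⟨walk⟩ := hcon.preconnected ⟨u, hux, huy⟩ ⟨w, hw.2.1, hw.2.2⟩
  cases walk with
  | nil => exact hw.1 rfl
  | cons hadj _ =>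
    rename_i z _
    have h1 : (gr p).Adj u z.1 := hadj
    have h2 : 0 < p u z.1 := by
      rcases Y13.gr_adj p u z.1 h1 with h | h
      · exact h
      · rw [hp.symm]; exact h
    have h3 : z.1 ∈ ({x, y} : Finset V) := hNT (by rw [hN, mem_filter]; exact ⟨mem_univ _, h2⟩)
    rw [mem_insert, mem_singleton] at h3
    rcases h3 with h3 | h3
    · exact z.2.1 h3
    · exact z.2.2 h3

/-- one step of the reduction to bricks that are not sums of smaller `r`-graphs -/
theorem step3 (k : ℕ) (h3 : S_conn3) (hbi : S_bicrit) (hT : S_transport) (hbip : H76TW.S_bip)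
    (hspan : H76TW.S_span) (htight2 : S_tight2) (hside : S_connSide)
    (Q : (W : Type) → SimpleGraph W → Prop)
    (hQ : ∀ (A B : Type) (H : SimpleGraph A) (G : SimpleGraph B), OddMinor H G → Q B G → Q A H)
    (hsmall : ∀ (V : Type) [Fintype V] [DecidableEq V] (r : ℕ) (p : V → V → ℕ),
      Fintype.card V ≤ 4 → RGraph r p → Cover k r p)
    (V : Type) [Fintype V] [DecidableEq V] (r : ℕ) (p : V → V → ℕ) (hp : RGraph r p)
    (hnp : Q V (gr p))
    (IH : ∀ (W : Type) [Fintype W] [DecidableEq W] (r : ℕ) (q : W → W → ℕ),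
      Fintype.card W < Fintype.card V → RGraph r q → Q W (gr q) → Cover k r q)
    (ihr : ∀ s < r, ∀ q : V → V → ℕ, RGraph s q → Q V (gr q) → Cover k s q)
    (hK : 6 ≤ Fintype.card V → 1 ≤ r → NoTight r p → Brick (gr p) → Cover k r p ∨ Splits r p) :
    Cover k r p := by
  rcases Nat.eq_zero_or_pos r with rfl | hr
  · exact cover_zero hp
  by_cases hc4 : Fintype.card V ≤ 4
  · exact hsmall V r p hc4 hp
  have hVe : Even (Fintype.card V) := by
    by_contra hodd
    have := hp.odd univ (by simpa using hodd)
    simp [H76FC.cut] at this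
    omega
  have hc6 : 6 ≤ Fintype.card V := by
    obtain ⟨m, hm⟩ := hVe
    omega
  by_cases hcon : (gr p).Connected
  swap
  · exact disc' Q (fun A B H G i hi hadj h =>
      hQ A B H G (oddMinor_sub H H G i hi hadj (oddMinor_self H)) h) k r p hp
      hcon hnp (fun W _ _ q hW hq hnq => IH W r q hW hq hnq)
  by_cases hnt : NoTight r p
  · rcases hbi V r p hc6 hr hp hnt hcon with ⟨Z, hZ1, hZ2⟩ | hM
    · obtain ⟨h1, h2⟩ := hspan V k r p hp
      apply h2
      have h5 := hbip V r p univ Z h1 (Finset.subset_univ _) (by rw [Finset.card_univ]; exact hZ1)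
        hZ2
      exact colmul' V k r p h5
    · have hbrick : Brick (gr p) := by
        intro u v huv
        refine ⟨h3 V r p hc6 hr hp hnt hcon u v huv, ?_⟩
        obtain ⟨M, hM1, hM2, hM3⟩ := hM u v huv
        refine ⟨M, hM1, hM2, ?_⟩
        intro x hxu hxv
        refine Y13.adj_gr p x (M x) ?_ (hM3 x hxu hxv)
        intro h
        have h4 := hM3 x hxu hxv
        rw [← h, hp.loopless] at h4
        exact lt_irrefl 0 h4
      rcases hK hc6 hr hnt hbrick with
        h | ⟨s, t, q, q', hs, ht, hst, hq, hq', hadd⟩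
      · exact h
      · have hsub : ∀ w : V → V → ℕ, (∀ u v, w u v ≤ p u v) → Q V (gr w) := by
          intro w hw
          refine hQ V V (gr w) (gr p) (oddMinor_sub (gr w) (gr w) (gr p) id Function.injective_id
            ?_ (oddMinor_self _)) hnp
          intro a b hab
          unfold gr at hab ⊢
          rw [SimpleGraph.fromRel_adj] at hab ⊢
          refine ⟨hab.1, ?_⟩
          simp only [id]
          have ha := hw a b
          have hb := hw b a
          rcases hab.2 with h1 | h1
          · left; omega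
          · right; omega
        have h1 := ihr s (by omega) q hq (hsub q (fun u v => by have := hadd u v; omega))
        have h2 := ihr t (by omega) q' hq' (hsub q' (fun u v => by have := hadd u v; omega))
        have h3 := cover_add hadd h1 h2
        rw [hst] at h3
        exact h3
  · -- tight cut
    unfold NoTight at hnt
    push Not at hnt
    obtain ⟨X, hX, hc, hX1, hX2⟩ := hnt
    have hadd' : X.card + Xᶜ.card = Fintype.card V := Finset.card_add_card_compl X
    have hodd' : Odd Xᶜ.card := by
      rw [← hadd'] at hVe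
      exact (Nat.even_add'.1 hVe).1 hX
    have hcardX : Fintype.card {v // v ∈ X} + Fintype.card {v // v ∉ X}
        = Fintype.card V := by
      rw [← Fintype.card_sum]
      exact Fintype.card_congr (Equiv.sumCompl (· ∈ X))
    have hcX : Fintype.card {v // v ∈ X} = X.card := by simp
    have hcX' : Fintype.card {v // v ∉ X} = Xᶜ.card := by
      rw [hcX] at hcardX
      omega
    have hX3 : 3 ≤ X.card := by obtain ⟨c, hc'⟩ := hX; omega
    have hX3' : 3 ≤ Xᶜ.card := by obtain ⟨c, hc'⟩ := hodd'; omega
    set e : V ≃ {v // v ∈ X} ⊕ {v // v ∉ X} := (Equiv.sumCompl (· ∈ X)).symm with he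
    set p' : {v // v ∈ X} ⊕ {v // v ∉ X} → {v // v ∈ X} ⊕ {v // v ∉ X} → ℕ :=
      fun a b => p (e.symm a) (e.symm b) with hp'
    have hpe : ∀ u v, p u v = p' (e u) (e v) := by intro u v; simp [hp']
    obtain ⟨h1, h2, h3'⟩ := hT V _ e p p' k r hpe
    have hRp' := h1 hp
    have hgr : gr p' = (gr p).comap e.symm := gr_comap e p
    have hcon' : (gr p').Connected := by
      rw [hgr]
      exact (SimpleGraph.Iso.comap e.symm (gr p)).connected_iff.2 hcon
    have hnp' : Q _ (gr p') := by
      refine hQ _ V (gr p') (gr p) (oddMinor_sub (gr p') (gr p') (gr p) e.symm e.symm.injective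
        ?_ (oddMinor_self _)) hnp
      intro a b hab
      rw [hgr, SimpleGraph.comap_adj] at hab
      exact hab
    have hsum : ∑ u, ∑ v, p' (.inl u) (.inr v) = r := by
      rw [← hc]
      have hl : ∀ u : {v // v ∈ X}, e.symm (.inl u) = u.1 := fun u => rfl
      have hr : ∀ u : {v // v ∉ X}, e.symm (.inr u) = u.1 := fun u => rfl
      simp only [hp', hl, hr, cut]
      rw [← Finset.sum_coe_sort X]
      apply Finset.sum_congr rfl
      intro u _
      exact (Finset.sum_subtype (Xᶜ) (fun x => by simp) (fun v => p u.1 v)).symm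
    have hO1 : Odd (Fintype.card {v // v ∈ X}) := by rw [hcX]; exact hX
    have hO2 : Odd (Fintype.card {v // v ∉ X}) := by rw [hcX']; exact hodd'
    obtain ⟨hs1', hs2'⟩ := hside _ _ r p' (by omega) hRp' hcon' hO1 hO2 hsum
    apply h2
    refine htight2 _ _ k r p' hRp' hO1 hO2 hsum ?_ ?_
    · intro hR
      refine IH _ r _ ?_ hR (hQ _ _ _ _
        ((contrOdd _ {v // v ∈ X} {v // v ∉ X} _ p' hRp'.symm).1 hO2 hs2' (oddMinor_self _)) hnp')
      rw [Fintype.card_option, hcX]
      omega
    · intro hR
      refine IH _ r _ ?_ hR (hQ _ _ _ _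
        ((contrOdd _ {v // v ∈ X} {v // v ∉ X} _ p' hRp'.symm).2 hO1 hs1' (oddMinor_self _)) hnp')
      rw [Fintype.card_option, hcX']
      omega

end Pool.Agent.TH849.LB
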